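import Pool.Agent.H74.Cw4
import Pool.Agent.H74.Cw5

namespace Pool.Agent.Results.MP_a3b474_co.Exact
open Pool.Agent.H74.Cw

theorem mod4 (k : ℕ) : 3 ^ k % 4 = (2 * k + 1) % 4 := by
  induction k with
  | zero => rfl
  | succ k ih => rw [pow_succ]; omega

theorem main (n L : ℕ) (hn : 3 ≤ n) (hL : IsLeast {w | 3 ^ (2 * n) * (2 * w + 1) ≤ 3 ^ w} L) :
    IsLeast {d | Solvable (3 ^ (2 * n)) d}
      (if 3 ^ (2 * n) * (2 * L + 1) = 3 ^ L then L + 1 else L) ∧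
    (3 ^ (2 * n) * (2 * L + 1) = 3 ^ L ↔ ∃ k, 4 * n + 2 * k + 1 = 3 ^ k) := by
  have hN : 0 < 3 ^ (2 * n) := by positivity
  have ex : ∀ w, 3 ^ (2 * n) * (2 * w + 1) ≤ 3 ^ w → ∃ k, w = 2 * n + k ∧ 2 * w + 1 ≤ 3 ^ k := by
    intro w hw
    have h1 : 3 ^ (2 * n) ≤ 3 ^ w := le_trans (Nat.le_mul_of_pos_right _ (by omega)) hw
    obtain ⟨k, rfl⟩ := Nat.exists_eq_add_of_le ((Nat.pow_le_pow_iff_right (by norm_num)).1 h1)
    rw [pow_add] at hw
    exact ⟨k, rfl, Nat.le_of_mul_le_mul_left hw hN⟩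
  obtain ⟨k, rfl, hk⟩ := ex L hL.1
  have hk3 : 3 ≤ k := by
    by_contra h
    have : k ≤ 2 := by omega
    interval_cases k <;> omega
  have heq : 3 ^ (2 * n) * (2 * (2 * n + k) + 1) = 3 ^ (2 * n + k) ↔
      2 * (2 * n + k) + 1 = 3 ^ k := by
    rw [pow_add]
    exact ⟨fun h => Nat.eq_of_mul_eq_mul_left hN h, fun h => by rw [h]⟩
  have low : ∀ d, Solvable (3 ^ (2 * n)) d → 2 * n + k ≤ d := fun d hd => hL.2 (by
    have := pf_le _ _ _ (pf_start hN hd)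
    simp only [Set.mem_setOf_eq]
    linarith)
  refine ⟨?_, heq.trans ⟨fun h => ⟨k, by omega⟩, ?_⟩⟩
  · obtain ⟨n, rfl⟩ : ∃ m, n = m + 3 := ⟨n - 3, by omega⟩
    obtain ⟨k, rfl⟩ : ∃ m, k = m + 3 := ⟨k - 3, by omega⟩
    have hY : 3 ^ (2 * (n + 3)) = 9 * 3 ^ (2 * n + 4) := by ring
    split_ifs with h
    · rw [heq] at h
      refine ⟨?_, fun d hd => ?_⟩
      · have := @upper (2 * n + k + 1) (3 ^ (2 * n + 4))
          (by rw [show 2 * n + k + 1 + 6 = (k + 3) + (2 * n + 4) by ring, pow_add, ← h]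
              exact Nat.mul_le_mul_right _ (by omega))
          (by rw [show 3 ^ (2 * n + k + 1 + 7) = 3 ^ (k + 3) * 3 * 3 ^ (2 * n + 4) by ring, ← h]
              exact Nat.mul_le_mul_right _ (by omega))
        rw [Set.mem_setOf_eq, hY, show 2 * (n + 3) + (k + 3) + 1 = 2 * n + k + 1 + 7 + 2 by ring]
        exact this
      · rcases (low d hd).lt_or_eq with h' | rfl
        · omega
        exfalso
        have h9 : 3 ^ (k + 3) = 9 * 3 ^ (k + 1) := by ring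
        have h3 : 3 ≤ 3 ^ (k + 1) := by rw [pow_succ]; have : 0 < 3 ^ k := by positivity
                                        omega
        refine @no_tight (2 * n + k + 5) (3 ^ (k + 1)) (2 * n + 5) (by omega) (by omega) h3
          (by ring) ?_
        rw [show 2 * n + k + 5 + 1 + 1 + 1 + 1 = 2 * (n + 3) + (k + 3) by ring,
          show 3 * 3 ^ (2 * n + 5) = 3 ^ (2 * (n + 3)) by ring]
        refine ⟨pf_start hN hd, ?_⟩
        rw [h]; ring
    · rw [heq] at h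
      refine ⟨?_, low⟩
      have hm := mod4 (k + 3)
      have hmin : 3 ^ (k + 2) ≤ 2 * (2 * n + k + 7) + 3 := by
        by_contra hc
        have : _ ≤ 2 * (n + 3) + (k + 2) := hL.2 (by
          rw [Set.mem_setOf_eq, pow_add 3 (2 * (n + 3))]
          exact Nat.mul_le_mul_left _ (by omega))
        omega
      have := @upper (2 * n + k) (3 ^ (2 * n + 4))
        (by rw [show 2 * n + k + 6 = (k + 2) + (2 * n + 4) by ring, pow_add]
            exact Nat.mul_le_mul_right _ hmin)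
        (by rw [show 3 ^ (2 * n + k + 7) = 3 ^ (k + 3) * 3 ^ (2 * n + 4) by ring]
            exact Nat.mul_le_mul_right _ (by omega))
      rw [Set.mem_setOf_eq, hY, show 2 * (n + 3) + (k + 3) = 2 * n + k + 7 + 2 by ring]
      exact this
  · rintro ⟨j, hj⟩
    have h1 : 2 * n + k ≤ 2 * n + j := hL.2 (by
      rw [Set.mem_setOf_eq, pow_add, ← hj]
      exact Nat.mul_le_mul_left _ (by omega))
    obtain ⟨i, rfl⟩ := Nat.exists_eq_add_of_le (show k ≤ j by omega)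
    have h2 := lt_pow3 i
    rw [pow_add] at hj
    have h3 := Nat.mul_le_mul_left (3 ^ k) h2
    rcases Nat.eq_zero_or_pos i with rfl | hi
    · simp at hj; omega
    · exfalso; nlinarith

theorem result (n : ℕ) (hn : 3 ≤ n) :
    ∃ L : ℕ, IsLeast {w : ℕ | 3 ^ (2 * n) * (2 * w + 1) ≤ 3 ^ w} L ∧
      IsLeast {d : ℕ | Solvable (3 ^ (2 * n)) d}
        (if 3 ^ (2 * n) * (2 * L + 1) = 3 ^ L then L + 1 else L) ∧
      (3 ^ (2 * n) * (2 * L + 1) = 3 ^ L ↔ ∃ k : ℕ, 4 * n + 2 * k + 1 = 3 ^ k) := by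
  have hne : ({w : ℕ | 3 ^ (2 * n) * (2 * w + 1) ≤ 3 ^ w}).Nonempty := ⟨2 * n + 2 * n, by
    rw [Set.mem_setOf_eq, pow_add]
    refine Nat.mul_le_mul_left _ ?_
    have := lt_pow3 n
    rw [show 3 ^ (2 * n) = 3 ^ n * 3 ^ n by ring]
    nlinarith⟩
  have hL : IsLeast {w : ℕ | 3 ^ (2 * n) * (2 * w + 1) ≤ 3 ^ w} (sInf _) :=
    ⟨Nat.sInf_mem hne, fun _ h => Nat.sInf_le h⟩
  exact ⟨_, hL, main n _ hn hL⟩

end Pool.Agent.Results.MP_a3b474_co.Exact
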